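import Pool.Agent.DPF.Stmts

/-!
Squad DPF, row SHU: one shift on traces.
-/

namespace Pool.Agent.DPF.H10

open Finset Pool.Agent.DPS

variable {n : ℕ}

/-- membership in the shifted family -/
theorem mem_cp {c y : Fin n} (hyc : y < c) (𝒯 : Finset (Finset (Fin n))) (E : Finset (Fin n)) :
    E ∈ UV.compression {y} {c} 𝒯 ↔
      (E ∈ 𝒯 ∧ (c ∈ E → y ∉ E → insert y (E.erase c) ∈ 𝒯)) ∨
      (E ∉ 𝒯 ∧ y ∈ E ∧ c ∉ E ∧ insert c (E.erase y) ∈ 𝒯) := by
  have hne : y ≠ c := hyc.ne
  have hc1 : ∀ b : Finset (Fin n), c ∈ b → y ∉ b →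
      UV.compress {y} {c} b = insert y (b.erase c) := by
    intro b h1 h2
    rw [UV.compress, if_pos ⟨disjoint_singleton_left.2 h2, singleton_subset_iff.2 h1⟩]
    ext z
    simp only [sup_eq_union, mem_sdiff, mem_union, mem_singleton, mem_insert, mem_erase]
    constructor
    · rintro ⟨h3 | h3, h4⟩
      · exact Or.inr ⟨h4, h3⟩
      · exact Or.inl h3
    · rintro (h3 | h3)
      · exact ⟨Or.inr h3, fun h => hne (h3.symm.trans h)⟩
      · exact ⟨Or.inl h3.2, h3.1⟩
  have hc2 : ∀ b : Finset (Fin n), ¬ (c ∈ b ∧ y ∉ b) → UV.compress {y} {c} b = b := by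
    intro b h
    rw [UV.compress, if_neg]
    rintro ⟨h1, h2⟩
    exact h ⟨singleton_subset_iff.1 h2, disjoint_singleton_left.1 h1⟩
  rw [UV.mem_compression]
  constructor
  · rintro (⟨h1, h2⟩ | ⟨h1, b, hb, h2⟩)
    · left
      refine ⟨h1, fun h3 h4 => ?_⟩
      rwa [hc1 E h3 h4] at h2
    · right
      by_cases h3 : c ∈ b ∧ y ∉ b
      · rw [hc1 b h3.1 h3.2] at h2
        subst h2
        refine ⟨h1, mem_insert_self _ _, ?_, ?_⟩
        · rw [mem_insert, mem_erase]
          rintro (h4 | h4)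
          · exact hne h4.symm
          · exact h4.1 rfl
        · rw [erase_insert (fun h => h3.2 (mem_of_mem_erase h)), insert_erase h3.1]
          exact hb
      · rw [hc2 b h3] at h2
        subst h2
        exact absurd hb h1
  · rintro (⟨h1, h2⟩ | ⟨h1, h2, h3, h4⟩)
    · left
      refine ⟨h1, ?_⟩
      by_cases h3 : c ∈ E ∧ y ∉ E
      · rw [hc1 E h3.1 h3.2]
        exact h2 h3.1 h3.2
      · rw [hc2 E h3]
        exact h1
    · right
      refine ⟨h1, _, h4, ?_⟩
      rw [hc1 _ (mem_insert_self _ _) (by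
        rw [mem_insert, mem_erase]
        rintro (h5 | h5)
        · exact hne h5
        · exact h5.1 rfl), erase_insert (fun h => h3 (mem_of_mem_erase h)), insert_erase h2]

/-- SHU -/
theorem shu : SHUStmt := by
  intro n t c y 𝒯 hyc hG
  have hne : y ≠ c := hyc.ne
  have hcm : c ∈ ini n (c.val + 1) := mem_filter.2 ⟨mem_univ _, Nat.lt_succ_self _⟩
  have hym : y ∈ ini n (c.val + 1) := mem_filter.2 ⟨mem_univ _, Nat.lt_succ_of_lt hyc⟩
  refine ⟨⟨?_, ?_, ?_⟩, ?_⟩
  · intro E hE
    rcases (mem_cp hyc 𝒯 E).1 hE with ⟨h1, -⟩ | ⟨-, h2, h3, h4⟩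
    · exact hG.sub E h1
    · intro z hz
      by_cases hzy : z = y
      · rw [hzy]
        exact hym
      · exact hG.sub _ h4 (mem_insert_of_mem (mem_erase.2 ⟨hzy, hz⟩))
  · intro E hE E' hEE' hE'
    rw [mem_cp hyc]
    have hsub : ∀ x z : Fin n, x ∈ ini n (c.val + 1) → insert x (E'.erase z) ⊆
        ini n (c.val + 1) := fun x z hx =>
      insert_subset hx ((erase_subset _ _).trans hE')
    rcases (mem_cp hyc 𝒯 E).1 hE with ⟨h1, h2⟩ | ⟨h1, h2, h3, h4⟩
    · left
      refine ⟨hG.up E h1 E' hEE' hE', fun h5 h6 => ?_⟩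
      by_cases h7 : c ∈ E
      · refine hG.up _ (h2 h7 fun h => h6 (hEE' h)) _ ?_ (hsub y c hym)
        exact insert_subset_insert _ (erase_subset_erase _ hEE')
      · refine hG.up E h1 _ ?_ (hsub y c hym)
        intro z hz
        exact mem_insert_of_mem (mem_erase.2 ⟨fun h => h7 (h ▸ hz), hEE' hz⟩)
    · by_cases h5 : c ∈ E'
      · left
        have h6 : E' ∈ 𝒯 := by
          refine hG.up _ h4 _ ?_ hE'
          exact insert_subset h5 ((erase_subset _ _).trans hEE')
        exact ⟨h6, fun _ h7 => absurd (hEE' h2) h7⟩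
      · by_cases h6 : E' ∈ 𝒯
        · exact Or.inl ⟨h6, fun h7 => absurd h7 h5⟩
        · right
          refine ⟨h6, hEE' h2, h5, hG.up _ h4 _ ?_ (hsub c y hcm)⟩
          exact insert_subset_insert _ (erase_subset_erase _ hEE')
  · -- the crossing case
    have hAB : ∀ E E' : Finset (Fin n), E ∈ 𝒯 → (c ∈ E → y ∉ E → insert y (E.erase c) ∈ 𝒯) →
        y ∈ E' → c ∉ E' → insert c (E'.erase y) ∈ 𝒯 → t ≤ (E ∩ E').card := by
      intro E E' h1 h2 h3 h4 h5
      by_cases hcE : c ∈ E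
      · by_cases hyE : y ∈ E
        · have h6 := hG.int E h1 _ h5
          have h7 : E ∩ insert c (E'.erase y) = insert c ((E ∩ E').erase y) := by
            rw [inter_insert_of_mem hcE, inter_erase]
          have h8 : y ∈ E ∩ E' := mem_inter.2 ⟨hyE, h3⟩
          rw [h7, card_insert_of_notMem (fun h => h4 (mem_inter.1 (mem_of_mem_erase h)).2),
            card_erase_of_mem h8] at h6
          have h9 : 0 < (E ∩ E').card := card_pos.2 ⟨y, h8⟩
          omega
        · have h6 := hG.int _ (h2 hcE hyE) _ h5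
          refine h6.trans (card_le_card ?_)
          intro z hz
          rw [mem_inter, mem_insert, mem_insert, mem_erase, mem_erase] at hz
          rw [mem_inter]
          rcases hz with ⟨h7 | h7, h8 | h8⟩
          · exact absurd (h7.symm.trans h8) hne
          · exact absurd h7 h8.1
          · exact absurd h8 h7.1
          · exact ⟨h7.2, h8.2⟩
      · have h6 := hG.int E h1 _ h5
        refine h6.trans (card_le_card ?_)
        intro z hz
        rw [mem_inter, mem_insert, mem_erase] at hz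
        rw [mem_inter]
        rcases hz with ⟨h7, h8 | h8⟩
        · exact absurd (h8 ▸ h7) hcE
        · exact ⟨h7, h8.2⟩
    intro E hE E' hE'
    rcases (mem_cp hyc 𝒯 E).1 hE with ⟨h1, h2⟩ | ⟨h1, h2, h3, h4⟩
    · rcases (mem_cp hyc 𝒯 E').1 hE' with ⟨h5, -⟩ | ⟨-, h6, h7, h8⟩
      · exact hG.int E h1 E' h5
      · exact hAB E E' h1 h2 h6 h7 h8
    · rcases (mem_cp hyc 𝒯 E').1 hE' with ⟨h5, h6⟩ | ⟨-, h6, h7, h8⟩
      · rw [inter_comm]
        exact hAB E' E h5 h6 h2 h3 h4
      · have h9 := hG.int _ h4 _ h8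
        have h10 : insert c (E.erase y) ∩ insert c (E'.erase y) =
            insert c ((E ∩ E').erase y) := by
          rw [← insert_inter_distrib, erase_inter, inter_erase, erase_idem]
        have h11 : y ∈ E ∩ E' := mem_inter.2 ⟨h2, h6⟩
        rw [h10, card_insert_of_notMem (fun h => h3 (mem_inter.1 (mem_of_mem_erase h)).1),
          card_erase_of_mem h11] at h9
        have h12 : 0 < (E ∩ E').card := card_pos.2 ⟨y, h11⟩
        omega
  · rintro ⟨E, hE, hcE, hyE, hnot⟩
    refine card_lt_card ⟨?_, fun h => ?_⟩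
    · intro E' hE'
      rw [mem_filter] at hE' ⊢
      refine ⟨?_, hE'.2⟩
      rcases (mem_cp hyc 𝒯 E').1 hE'.1 with ⟨h1, -⟩ | ⟨-, -, h3, -⟩
      · exact h1
      · exact absurd hE'.2 h3
    · have h1 := (mem_filter.1 (h (mem_filter.2 ⟨hE, hcE⟩))).1
      rcases (mem_cp hyc 𝒯 E).1 h1 with ⟨-, h2⟩ | ⟨h2, -⟩
      · exact hnot (h2 hcE hyE)
      · exact h2 hE

end Pool.Agent.DPF.H10
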