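import Pool.Agent.DPF.StmtsR

/-!
Squad DPF, row TRV: no conflicts.
-/

namespace Pool.Agent.DPF.H10

open Finset Pool.Agent.DPS

/-- `s e` is at least 1 -/
theorem se_one {ν k e : ℕ} (h1 : e < k) (h2 : k ≤ e + ν) : 1 ≤ se ν k e := by
  unfold se
  have h3 : (e : ℝ) < k := by exact_mod_cast h1
  have h4 : (k : ℝ) ≤ e + ν := by exact_mod_cast h2
  rw [le_div_iff₀ (by linarith)]
  linarith

/-- TRV -/
theorem trv : TRVStmt := by
  intro n k t L htL hLn hk
  have hst : ∀ e : ℕ, e < k → (if e < k then 1 else 0 : ℕ) = 1 := fun e he => if_pos he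
  refine ⟨{ N := 1, w := fun _ => 1, st := fun _ e => if e < k then 1 else 0,
            nonneg := fun _ => zero_le_one, sum_one := by simp, conf := ?_, keep := ?_ }, ?_⟩
  · intro i e e' he
    by_cases h1 : e < k
    · right
      left
      exact if_neg (by omega)
    · left
      exact if_neg h1
  · intro e h1 h2 h3 h4
    have h5 : (∑ i : Fin 1, (fun _ : Fin 1 => (1 : ℝ)) i *
        (if (fun (_ : Fin 1) (e : ℕ) => if e < k then 1 else 0) i e = 0 then 0
          else if (fun (_ : Fin 1) (e : ℕ) => if e < k then 1 else 0) i e = 1 then 1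
            else ((L : ℝ) - e) / L)) = 1 := by
      simp [h3]
    rw [h5, mul_one]
    exact se_one h3 h4
  · intro A X m hA hX hm η hη hηm
    unfold TT ex
    refine Finset.sum_nonneg fun i _ => ?_
    refine mul_nonneg zero_le_one (div_nonneg (Finset.sum_nonneg fun j _ => ?_)
      (Nat.cast_nonneg L))
    have hkp : ∀ E ∈ X, kp (fun e : ℕ => if e < k then 1 else 0) j E := fun E hE =>
      Or.inl (if_pos (hX E hE).2.2.2.2.1)
    have hse : ∀ E ∈ X, 1 ≤ se (n - L) k E.card := fun E hE =>
      se_one (hX E hE).2.2.2.2.1 (hX E hE).2.2.2.2.2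
    have hgy : ∀ y, 0 ≤ gy (n - L) k (fun e : ℕ => if e < k then 1 else 0) j X m y := by
      intro y
      unfold gy
      refine Finset.sum_nonneg fun E hE => ?_
      by_cases hy : y ∈ E
      · rw [if_pos hy, if_pos (hkp E hE)]
        exact mul_nonneg (hm E hE) (by linarith [hse E hE])
      · rw [if_neg hy]
    have hhh : hh (fun e : ℕ => if e < k then 1 else 0) j X m = ∑ E ∈ X, m E := by
      unfold hh
      exact Finset.sum_congr rfl fun E hE => if_pos (hkp E hE)
    have hgg : ∑ E ∈ X, m E ≤ gg (n - L) k (fun e : ℕ => if e < k then 1 else 0) j X m := by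
      unfold gg
      refine Finset.sum_le_sum fun E hE => ?_
      rw [if_pos (hkp E hE)]
      nlinarith [hm E hE, hse E hE]
    have h1 : 0 ≤ (∑ y ∈ ini n L \ A, ((max (η + gy (n - L) k
        (fun e : ℕ => if e < k then 1 else 0) j X m y) 0) ^ 2 - η ^ 2)) /
        ((A.card : ℝ) + 1) := by
      refine div_nonneg (Finset.sum_nonneg fun y _ => ?_) (by positivity)
      rw [max_eq_left (add_nonneg hη (hgy y))]
      nlinarith [hgy y]
    have h2 : η ^ 2 ≤ (max (η - (∑ E ∈ X, m E -
        hh (fun e : ℕ => if e < k then 1 else 0) j X m)) 0) ^ 2 *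
        (gg (n - L) k (fun e : ℕ => if e < k then 1 else 0) j X m /
          hh (fun e : ℕ => if e < k then 1 else 0) j X m) := by
      rw [hhh, sub_self, sub_zero, max_eq_left hη]
      rcases hη.eq_or_lt with h3 | h3
      · rw [← h3]
        simp
      · have h4 : 0 < ∑ E ∈ X, m E := h3.trans_le hηm
        have h5 : 1 ≤ gg (n - L) k (fun e : ℕ => if e < k then 1 else 0) j X m /
            ∑ E ∈ X, m E := by
          rw [le_div_iff₀ h4, one_mul]
          exact hgg
        nlinarith [sq_nonneg η]
    linarith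

end Pool.Agent.DPF.H10
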